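import Pool.Agent.KS6_25.CAU.Space

/-!
# MP_98ebd8_lc, Q1: a disproof by causal spacetimes, in every dimension `n ≥ 3`

The spacetime is the flat manifold `ℝⁿ/Γ = ℝ × T² × ℝⁿ⁻³` with the coordinates `(t, b, c, z)` and the
constant metric `-2 dt db + dc² + |dz|²`, where `Γ` is the lattice spanned in the `(b, c)` plane by
`(1, 1)` and `(0, √2)`.  The height `t` is nondecreasing along future directed causal curves, and a
causal curve of constant height runs along the null lines of direction `∂_b`, which are not closed
since `√2` is irrational.  So there are no closed causal curves.  On the other hand a causal curve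
that rises by an arbitrarily small amount can run far along the null lines, and deviate from them by
any amount; since the lattice has points in every parabolic region around the null direction, every
point of larger height is after a given point.  Hence `y` is after `x` if and only if `y` is higher
than `x` or ahead of `x` on its null line, and the after-2 formula is valid.

The earlier examples have closed causal curves through all points off one null hypersurface.
-/

namespace Pool.Agent.Results.MP_98ebd8_lc.CausalValid

open Pool.Agent.KS6_25.CAU

/-- In every dimension `n ≥ 3` there is a flat spacetime `S` without closed causal curves (so it is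
causal, in particular causally non-totally vicious) on which the after-2 formula is valid.
Moreover, with a surjective height `t` and a one-parameter group `φ` of translations of `S` which
keep the height, `y` is after `x` iff `y` is higher than `x` or `y = x + φ s` for some `s > 0`. -/
theorem result : ∀ n : ℕ, 3 ≤ n → ∃ S : Spacetime n,
    IsCausal S ∧ CNTV S ∧ AfterTwoValid (After S) ∧
    (∀ p q, S.g p = S.g q) ∧
    ∃ (t : S.Pt → ℝ) (φ : ℝ → S.Pt), Function.Surjective t ∧
      (∀ s s', φ (s + s') = φ s + φ s') ∧ (∀ x s, t (x + φ s) = t x) ∧
      ∀ x y, After S x y ↔ t x < t y ∨ ∃ s, 0 < s ∧ y = x + φ s := by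
  intro n hn
  obtain ⟨k, rfl⟩ := Nat.exists_eq_add_of_le' hn
  refine ⟨S0 k, causal, ⟨(S0 k).proj 0, causal _⟩, valid, fun _ _ => rfl, ht, flow, ?_,
    fun s s' => (flow_add s s').symm, ht_flow, after_iff⟩
  intro r
  exact ⟨(S0 k).proj (pt r 0 0 0), rfl⟩

end Pool.Agent.Results.MP_98ebd8_lc.CausalValid
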